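import Pool.Agent.Work.MP_ce2d68_du.Interface

/-!
# MP_ce2d68_nt: block GMINK (Minkowski's theorem for Gaussian polynomials)
-/

set_option autoImplicit false

open Polynomial MeasureTheory
open scoped ComplexConjugate

namespace Pool.Agent.Work.MP_ce2d68_du.h70

open Pool.Agent.Work.MP_ce2d68_st Pool.Agent.Work.MP_ce2d68_du

/-- the standard real basis of `ℂ ^ ν` -/
noncomputable def bas (ν : ℕ) : Module.Basis (Σ _ : Fin ν, Fin 2) ℝ (Fin ν → ℂ) :=
  Pi.basis fun _ => Complex.basisOneI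

theorem vol_sq : volume {z : ℂ | z.re ∈ Set.Ico (0 : ℝ) 1 ∧ z.im ∈ Set.Ico (0 : ℝ) 1} = 1 := by
  have h := Complex.volume_preserving_equiv_real_prod
  have e : {z : ℂ | z.re ∈ Set.Ico (0 : ℝ) 1 ∧ z.im ∈ Set.Ico (0 : ℝ) 1} =
      Complex.measurableEquivRealProd ⁻¹' (Set.Ico (0 : ℝ) 1 ×ˢ Set.Ico (0 : ℝ) 1) := by
    ext z
    rfl
  rw [e, h.measure_preimage (measurableSet_Ico.prod measurableSet_Ico).nullMeasurableSet,
    Measure.volume_eq_prod, Measure.prod_prod]
  simp

theorem bas_repr0 {ν : ℕ} (x : Fin ν → ℂ) (j : Fin ν) : (bas ν).repr x ⟨j, 0⟩ = (x j).re := by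
  rw [bas, Pi.basis_repr, Complex.coe_basisOneI_repr]
  rfl

theorem bas_repr1 {ν : ℕ} (x : Fin ν → ℂ) (j : Fin ν) : (bas ν).repr x ⟨j, 1⟩ = (x j).im := by
  rw [bas, Pi.basis_repr, Complex.coe_basisOneI_repr]
  rfl

theorem vol_fund (ν : ℕ) : volume (ZSpan.fundamentalDomain (bas ν)) = 1 := by
  have e : ZSpan.fundamentalDomain (bas ν) =
      Set.univ.pi fun _ => {z : ℂ | z.re ∈ Set.Ico (0 : ℝ) 1 ∧ z.im ∈ Set.Ico (0 : ℝ) 1} := by
    ext x
    rw [ZSpan.mem_fundamentalDomain]
    simp only [Set.mem_pi, Set.mem_univ, true_implies, Set.mem_setOf_eq]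
    constructor
    · intro h j
      have h0 := h ⟨j, 0⟩
      have h1 := h ⟨j, 1⟩
      rw [bas_repr0] at h0
      rw [bas_repr1] at h1
      exact ⟨h0, h1⟩
    · rintro h ⟨j, i⟩
      fin_cases i
      · change (bas ν).repr x ⟨j, 0⟩ ∈ _
        rw [bas_repr0]
        exact (h j).1
      · change (bas ν).repr x ⟨j, 1⟩ ∈ _
        rw [bas_repr1]
        exact (h j).2
  rw [e, volume_pi_pi]
  simp only [vol_sq, Finset.prod_const_one]

/-- products over ordered pairs -/
theorem prod_pairs {ν : ℕ} (q : Fin ν → Fin ν → ℝ) (hq : ∀ i j, q i j = q j i) :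
    ∏ i, ∏ j ∈ Finset.univ.erase i, q i j = (∏ i, ∏ j ∈ Finset.Ioi i, q i j) ^ 2 := by
  have e1 : ∀ i : Fin ν, ∏ j ∈ Finset.univ.erase i, q i j =
      (∏ j ∈ Finset.Ioi i, q i j) * ∏ j ∈ Finset.Iio i, q i j := by
    intro i
    rw [← Finset.prod_union]
    · congr 1
      ext j
      simp only [Finset.mem_erase, Finset.mem_univ, and_true, Finset.mem_union, Finset.mem_Ioi, Finset.mem_Iio]
      constructor
      · intro h
        rcases lt_or_gt_of_ne h with h | h
        · exact Or.inr h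
        · exact Or.inl h
      · rintro (h | h)
        · exact ne_of_gt h
        · exact ne_of_lt h
    · rw [Finset.disjoint_left]
      intro j h1 h2
      rw [Finset.mem_Ioi] at h1
      rw [Finset.mem_Iio] at h2
      exact absurd h1 (not_lt.2 h2.le)
  simp only [e1]
  rw [Finset.prod_mul_distrib, sq]
  congr 1
  rw [Finset.prod_comm' (t' := Finset.univ) (s' := fun j => Finset.Ioi j)]
  · apply Finset.prod_congr rfl
    intro j _
    apply Finset.prod_congr rfl
    intro i _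
    exact hq i j
  · intro i j
    simp

theorem p_GMINK : Stmt_GMINK := by
  intro N hN
  have hν : 0 < N.card := hN.card_pos
  obtain ⟨ν, hνe⟩ : ∃ ν, N.card = ν := ⟨_, rfl⟩
  rw [hνe] at hν ⊢
  let e : Fin ν ≃ N := (N.equivFinOfCardEq hνe).symm
  let v : Fin ν → ℂ := fun i => (e i : ℂ)
  have hv : Function.Injective v := fun i j h => e.injective (Subtype.ext h)
  have hNv : N = Finset.univ.image v := by
    ext a
    simp only [Finset.mem_image, Finset.mem_univ, true_and]
    constructor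
    · intro h
      exact ⟨e.symm ⟨a, h⟩, by simp [v]⟩
    · rintro ⟨i, rfl⟩
      exact (e i).2
  set E : ℝ := ∑ a ∈ N, ∑ b ∈ N.erase a, Real.log ‖a - b‖ with hE
  set κ : ℝ := 2 * Real.exp (-E / (2 * ν)) with hκ
  have hκ0 : 0 < κ := by positivity
  set r : Fin ν → ℝ := fun i => κ * ∏ b ∈ N.erase (v i), ‖v i - b‖ with hr
  have hpos : ∀ i : Fin ν, 0 < ∏ b ∈ N.erase (v i), ‖v i - b‖ := by
    intro i
    apply Finset.prod_pos
    intro b hb
    rw [Finset.mem_erase] at hb
    exact norm_pos_iff.2 (sub_ne_zero.2 hb.1.symm)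
  have hr0 : ∀ i, 0 < r i := fun i => mul_pos hκ0 (hpos i)
  set P : ℝ := ∏ i : Fin ν, ∏ b ∈ N.erase (v i), ‖v i - b‖ with hP
  have hP0 : 0 < P := Finset.prod_pos fun i _ => hpos i
  have hPE : P = Real.exp E := by
    rw [hP, hE, Real.exp_sum]
    conv_rhs => rw [hNv]
    rw [Finset.prod_image (fun i _ j _ h => hv h)]
    apply Finset.prod_congr rfl
    intro i _
    rw [Real.exp_sum, ← hNv]
    apply Finset.prod_congr rfl
    intro b hb
    rw [Finset.mem_erase] at hb
    rw [Real.exp_log (norm_pos_iff.2 (sub_ne_zero.2 hb.1.symm))]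
  -- the determinant
  set V : Matrix (Fin ν) (Fin ν) ℂ := Matrix.vandermonde v with hV
  have hdet : ‖V.det‖ ^ 2 = P := by
    rw [hV, Matrix.det_vandermonde, norm_prod]
    simp only [norm_prod]
    rw [hP]
    have e1 : ∀ i : Fin ν, ∏ b ∈ N.erase (v i), ‖v i - b‖ = ∏ j ∈ Finset.univ.erase i, ‖v i - v j‖ := by
      intro i
      have e2 : N.erase (v i) = (Finset.univ.erase i).image v := by
        rw [hNv, Finset.image_erase hv]
      rw [e2, Finset.prod_image (fun i _ j _ h => hv h)]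
    simp only [e1]
    rw [prod_pairs (fun i j => ‖v i - v j‖) (fun i j => norm_sub_rev _ _)]
    congr 1
    apply Finset.prod_congr rfl
    intro i _
    apply Finset.prod_congr rfl
    intro j _
    exact norm_sub_rev _ _
  let f : (Fin ν → ℂ) →ₗ[ℂ] (Fin ν → ℂ) := Matrix.toLin' V
  let g : (Fin ν → ℂ) →ₗ[ℝ] (Fin ν → ℂ) := f.restrictScalars ℝ
  have hg : LinearMap.det g = P := by
    have h1 : LinearMap.det g = Algebra.norm ℝ (LinearMap.det f) := LinearMap.det_restrictScalars
    rw [h1, Algebra.norm_complex_apply, LinearMap.det_toLin', Complex.normSq_eq_norm_sq, hdet]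
  have hg0 : LinearMap.det g ≠ 0 := by rw [hg]; exact hP0.ne'
  set B : Set (Fin ν → ℂ) := Set.univ.pi fun i => Metric.closedBall (0 : ℂ) (r i) with hB
  have hvolB : volume B = ENNReal.ofReal (∏ i, (r i ^ 2 * Real.pi)) := by
    rw [hB, volume_pi_pi, ENNReal.ofReal_prod_of_nonneg (fun i _ => by positivity)]
    apply Finset.prod_congr rfl
    intro i _
    have key : ∀ y : ℝ, 0 < y → ENNReal.ofReal y ^ 2 * (NNReal.pi : ENNReal) = ENNReal.ofReal (y ^ 2 * Real.pi) := by
      intro y hy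
      rw [ENNReal.ofReal_mul (by positivity), ENNReal.ofReal_pow hy.le]
      congr 1
      rw [← NNReal.coe_real_pi, ENNReal.ofReal_coe_nnreal]
    rw [Complex.volume_closedBall]
    exact key _ (hr0 i)
  have hprod : ∏ i, (r i ^ 2 * Real.pi) = (4 * Real.pi) ^ ν * P := by
    rw [Finset.prod_mul_distrib, Finset.prod_pow, hr]
    simp only
    rw [Finset.prod_mul_distrib, ← hP]
    simp only [Finset.prod_const, Finset.card_univ, Fintype.card_fin]
    have h1 : κ ^ ν = 2 ^ ν * Real.exp (-E / 2) := by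
      rw [hκ, mul_pow, ← Real.exp_nat_mul]
      congr 2
      have : (ν : ℝ) ≠ 0 := by positivity
      field_simp
    have h2 : (κ ^ ν * P) ^ 2 = 4 ^ ν * P := by
      rw [h1, mul_pow, mul_pow, hPE, ← Real.exp_nat_mul, ← Real.exp_nat_mul, mul_assoc, ← Real.exp_add]
      congr 1
      · rw [← pow_mul, mul_comm, pow_mul]; norm_num
      · congr 1
        push_cast
        ring
    rw [h2, mul_pow]
    ring
  have hvol : volume (ZSpan.fundamentalDomain (bas ν)) * 2 ^ Module.finrank ℝ (Fin ν → ℂ) < volume (g ⁻¹' B) := by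
    rw [vol_fund, one_mul, Measure.addHaar_preimage_linearMap volume hg0, hvolB, hprod, hg,
      abs_of_pos (inv_pos.2 hP0), ← ENNReal.ofReal_mul (by positivity)]
    rw [Module.finrank_eq_card_basis (bas ν)]
    have e1 : Fintype.card (Σ _ : Fin ν, Fin 2) = 2 * ν := by simp [mul_comm]
    rw [e1]
    have e2 : P⁻¹ * ((4 * Real.pi) ^ ν * P) = (4 * Real.pi) ^ ν := by field_simp
    rw [e2]
    have e3 : (2 : ENNReal) ^ (2 * ν) = ENNReal.ofReal ((4 : ℝ) ^ ν) := by
      rw [pow_mul, ENNReal.ofReal_pow (by norm_num)]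
      norm_num
    rw [e3]
    apply (ENNReal.ofReal_lt_ofReal_iff (by positivity)).2
    apply pow_lt_pow_left₀ _ (by norm_num) hν.ne'
    have := Real.pi_gt_three
    linarith
  have hsymm : ∀ x ∈ g ⁻¹' B, -x ∈ g ⁻¹' B := by
    intro x hx
    rw [Set.mem_preimage, map_neg]
    rw [Set.mem_preimage] at hx
    intro i hi
    have := hx i hi
    simpa using this
  have hconv : Convex ℝ (g ⁻¹' B) := by
    apply Convex.linear_preimage
    exact convex_pi fun i _ => convex_closedBall _ _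
  have : Countable (Submodule.span ℤ (Set.range (bas ν))).toAddSubgroup := by
    change Countable (Submodule.span ℤ (Set.range (bas ν)))
    infer_instance
  obtain ⟨x, hx0, hxB⟩ := exists_ne_zero_mem_lattice_of_measure_mul_two_pow_lt_measure
    (ZSpan.isAddFundamentalDomain' (bas ν) volume) hsymm hconv hvol
  have hx := (Module.Basis.mem_span_iff_repr_mem ℤ (bas ν) (x : Fin ν → ℂ)).1 x.2
  have hm : ∀ j : Fin ν, ∃ m : ℤ, (m : ℝ) = ((x : Fin ν → ℂ) j).re := by
    intro j
    obtain ⟨m, hm⟩ := hx ⟨j, 0⟩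
    refine ⟨m, ?_⟩
    rw [← bas_repr0]
    exact hm
  have hn : ∀ j : Fin ν, ∃ m : ℤ, (m : ℝ) = ((x : Fin ν → ℂ) j).im := by
    intro j
    obtain ⟨m, hm⟩ := hx ⟨j, 1⟩
    refine ⟨m, ?_⟩
    rw [← bas_repr1]
    exact hm
  choose m hm using hm
  choose n hn using hn
  have hxj : ∀ j, (x : Fin ν → ℂ) j = (m j : ℂ) + Complex.I * (n j : ℂ) := by
    intro j
    apply Complex.ext
    · simp [hm j]
    · simp [hn j]
  have hdeg : ∀ c : Fin ν → ℤ, (∑ j : Fin ν, C (c j) * X ^ (j : ℕ) : ℤ[X]).natDegree < ν := by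
    intro c
    have hle : (∑ j : Fin ν, C (c j) * X ^ (j : ℕ) : ℤ[X]).natDegree ≤ ν - 1 := by
      apply Polynomial.natDegree_sum_le_of_forall_le
      intro j _
      apply le_trans (Polynomial.natDegree_C_mul_X_pow_le _ _)
      have := j.2
      omega
    omega
  have hcoef : ∀ (c : Fin ν → ℤ) (j : Fin ν), (∑ j : Fin ν, C (c j) * X ^ (j : ℕ) : ℤ[X]).coeff j = c j := by
    intro c j
    rw [Polynomial.finset_sum_coeff]
    simp only [Polynomial.coeff_C_mul, Polynomial.coeff_X_pow, mul_ite, mul_one, mul_zero]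
    rw [Finset.sum_eq_single j]
    · simp
    · intro i _ hij
      rw [if_neg (fun h => hij (Fin.ext h.symm))]
    · simp
  have hev : ∀ (c : Fin ν → ℤ) (a : ℂ), ev (∑ j : Fin ν, C (c j) * X ^ (j : ℕ)) a = ∑ j : Fin ν, (c j : ℂ) * a ^ (j : ℕ) := by
    intro c a
    unfold ev cp
    simp [Polynomial.eval_finset_sum, Polynomial.map_sum, Polynomial.eval_map]
  refine ⟨∑ j : Fin ν, C (m j) * X ^ (j : ℕ), ∑ j : Fin ν, C (n j) * X ^ (j : ℕ), ?_, hdeg m, hdeg n, ?_⟩
  · by_contra hcon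
    rw [not_or, not_not, not_not] at hcon
    apply hx0
    apply Subtype.ext
    funext j
    rw [hxj j, ← hcoef m j, ← hcoef n j, hcon.1, hcon.2]
    simp
  · intro a ha
    have ha' : ∃ i, v i = a := by
      rw [hNv] at ha
      simpa using ha
    obtain ⟨i, rfl⟩ := ha'
    have h1 := hxB i (Set.mem_univ i)
    rw [mem_closedBall_zero_iff] at h1
    have h2 : g (x : Fin ν → ℂ) i = ev (∑ j : Fin ν, C (m j) * X ^ (j : ℕ)) (v i) +
        Complex.I * ev (∑ j : Fin ν, C (n j) * X ^ (j : ℕ)) (v i) := by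
      change (Matrix.toLin' V) (x : Fin ν → ℂ) i = _
      rw [Matrix.toLin'_apply, Matrix.mulVec, dotProduct, hev, hev, Finset.mul_sum, ← Finset.sum_add_distrib]
      apply Finset.sum_congr rfl
      intro j _
      rw [hxj j, hV, Matrix.vandermonde_apply]
      ring
    rw [← h2]
    exact h1

end Pool.Agent.Work.MP_ce2d68_du.h70
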